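import Pool.Agent.H487.MI.Stm
import Pool.Graph.R_seed8.Y766.R3.TE

set_option autoImplicit false

namespace Pool.Agent.H118.MI

open Pool.Agent.H487.MI
open Finset
open Pool.Agent.Y766.R11 (MP Reg MS)
open Pool.Agent.Y766.R3 (prim_mul)

lemma absorb {a : ℝ} (ha : 0 < a) : ∃ A : ℝ, 0 < A ∧ ∀ R : ℝ, 0 ≤ R →
    (1 + R) ^ 6 ≤ A * Real.exp (a * R) := by
  refine ⟨720 * Real.exp a / a ^ 6, by positivity, ?_⟩
  intro R hR
  have h1 := Real.pow_div_factorial_le_exp (a * (1 + R)) (by positivity) 6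
  have h2 : Real.exp (a * (1 + R)) = Real.exp a * Real.exp (a * R) := by
    rw [← Real.exp_add]; ring_nf
  rw [h2, div_le_iff₀ (by positivity), mul_pow] at h1
  have h3 : ((Nat.factorial 6 : ℕ) : ℝ) = 720 := by norm_num [Nat.factorial]
  rw [h3] at h1
  rw [div_mul_eq_mul_div, le_div_iff₀ (by positivity)]
  linarith

lemma MS_diff {q : ℕ} (χ : DirichletCharacter ℂ q) (κ : ℝ) :
    Differentiable ℂ (fun s => MS χ κ s) := by
  unfold MS
  apply Differentiable.fun_sum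
  intro n hn
  rw [mem_Icc] at hn
  have hn0 : (n : ℂ) ≠ 0 := by
    have : n ≠ 0 := by omega
    exact_mod_cast this
  intro s
  exact ((differentiableAt_id.neg.const_cpow (Or.inl hn0)).const_mul _).const_mul _

lemma MP_diff {q : ℕ} (χ : DirichletCharacter ℂ q) (κ : ℝ) :
    Differentiable ℂ (fun s => MP χ κ s) := by
  unfold MP
  exact ((MS_diff χ κ).const_mul 2).sub (MS_diff χ (κ / 2))

lemma card_le' (p : ℕ) [Fact p.Prime] (m : ℕ) :
    (Fintype.card (DirichletCharacter ℂ (p ^ m)) : ℝ) ≤ (p : ℝ) ^ m := by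
  have h5 : Fintype.card (DirichletCharacter ℂ (p ^ m)) ≤ p ^ m := by
    rw [← Nat.card_eq_fintype_card, DirichletCharacter.card_eq_totient_of_hasEnoughRootsOfUnity]
    exact Nat.totient_le _
  exact_mod_cast h5

/-- Markov -/
lemma markov {ι : Type} [Fintype ι] (g : ι → ℂ) (B a : ℝ) (ha : 0 < a)
    (h : ∑ i, ‖g i‖ ^ 2 ≤ B) : (Nat.card {i // a ≤ ‖g i‖ ^ 2} : ℝ) ≤ B / a := by
  classical
  rw [le_div_iff₀ ha, Nat.card_eq_fintype_card, Fintype.card_subtype]
  refine le_trans ?_ h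
  calc ((univ.filter (fun i => a ≤ ‖g i‖ ^ 2)).card : ℝ) * a
      = ∑ i ∈ univ.filter (fun i => a ≤ ‖g i‖ ^ 2), a := by
        rw [sum_const, nsmul_eq_mul]
    _ ≤ ∑ i ∈ univ.filter (fun i => a ≤ ‖g i‖ ^ 2), ‖g i‖ ^ 2 := by
        apply sum_le_sum
        intro i hi
        exact (mem_filter.1 hi).2
    _ ≤ ∑ i, ‖g i‖ ^ 2 := by
        apply sum_le_sum_of_subset_of_nonneg (filter_subset _ _)
        intro i _ _
        positivity

/-- union of three bad sets -/
lemma union3 {ι : Type} [Fintype ι] (Q P1 P2 P3 : ι → Prop) (b1 b2 b3 : ℝ)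
    (h : ∀ i, Q i → P1 i ∨ P2 i ∨ P3 i)
    (h1 : (Nat.card {i // P1 i} : ℝ) ≤ b1) (h2 : (Nat.card {i // P2 i} : ℝ) ≤ b2)
    (h3 : (Nat.card {i // P3 i} : ℝ) ≤ b3) : (Nat.card {i // Q i} : ℝ) ≤ b1 + b2 + b3 := by
  classical
  rw [Nat.card_eq_fintype_card, Fintype.card_subtype] at h1 h2 h3 ⊢
  have h4 : univ.filter Q ⊆ univ.filter P1 ∪ univ.filter P2 ∪ univ.filter P3 := by
    intro i hi
    simp only [mem_union, mem_filter, mem_univ, true_and] at hi ⊢
    rcases h i hi with h | h | h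
    · exact Or.inl (Or.inl h)
    · exact Or.inl (Or.inr h)
    · exact Or.inr h
  have h5 : (univ.filter Q).card ≤ (univ.filter P1).card + (univ.filter P2).card +
      (univ.filter P3).card := by
    refine (card_le_card h4).trans ?_
    refine (card_union_le _ _).trans ?_
    exact Nat.add_le_add_right (card_union_le _ _) _
  have h6 : ((univ.filter Q).card : ℝ) ≤ ((univ.filter P1).card : ℝ) + (univ.filter P2).card +
      (univ.filter P3).card := by exact_mod_cast h5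
  linarith

/-- the counting argument for an abstract finite family -/
lemma core (h5 : S_SUP) (h6 : S_GRID) {ι : Type} [Fintype ι] (F G : ι → ℂ → ℂ)
    (hF : ∀ i, Differentiable ℂ (F i)) (hG : ∀ i, Differentiable ℂ (G i))
    (M a : ι → ℂ) {R c₀ ε B₁ B₂ B₃ : ℝ} (hR : 16 ≤ R) (hcR : 16 ≤ c₀ * R)
    (hB2 : 0 ≤ B₂) (hB3 : 0 ≤ B₃)
    (h1 : ∑ i, ‖a i * M i - 1‖ ^ 2 ≤ B₁)
    (h2 : ∀ z : ℂ, -2 ≤ z.re → ‖z‖ ≤ R → ∑ i, ‖F i z * M i‖ ^ 2 ≤ B₂)
    (h3 : ∀ z : ℂ, c₀ * R / 2 ≤ z.re → ‖z‖ ≤ R → ∑ i, ‖F i z * G i z - 1‖ ^ 2 ≤ B₃) :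
    (Nat.card {i // ¬ ((∀ z : ℂ, c₀ * R ≤ z.re → ‖z‖ ≤ R - 4 → F i z ≠ 0) ∧
      (∀ z : ℂ, 0 ≤ z.re → ‖z‖ ≤ R - 4 → ‖F i z‖ ≤ Real.exp (ε * R) * ‖a i‖))} : ℝ) ≤
      4 * B₁ + 100 * R ^ 2 * (8 * B₂ * Real.exp (-(2 * (ε * R)))) + 100 * R ^ 2 * (2 * B₃) := by
  classical
  obtain ⟨K, hK1, hK2⟩ := h6 R (by linarith)
  obtain ⟨E, hE⟩ : ∃ E : ℝ, E = Real.exp (ε * R) := ⟨_, rfl⟩
  have hE0 : 0 < E := by rw [hE]; exact Real.exp_pos _
  have hE2 : Real.exp (-(2 * (ε * R))) = 1 / E ^ 2 := by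
    rw [hE, Real.exp_neg, ← Real.exp_nat_mul]
    norm_num
  have hKsub : ∀ (P : ℂ → Prop) [DecidablePred P], ((K.filter P).card : ℝ) ≤ 100 * R ^ 2 :=
    fun P _ => le_trans (by exact_mod_cast card_le_card (filter_subset _ _)) hK1
  refine union3 _ (fun i => 1 / 4 ≤ ‖a i * M i - 1‖ ^ 2)
    (fun i => ∃ k ∈ K.filter (fun k => 0 ≤ k.re ∧ ‖k‖ ≤ R - 3), ∃ z : ℂ, ‖z - k‖ ≤ 1 ∧
      E ^ 2 / 4 ≤ ‖F i z * M i‖ ^ 2)
    (fun i => ∃ k ∈ K.filter (fun k => c₀ * R - 1 ≤ k.re ∧ ‖k‖ ≤ R - 3), ∃ z : ℂ, ‖z - k‖ ≤ 1 ∧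
      1 ≤ ‖F i z * G i z - 1‖ ^ 2) _ _ _ ?_ ?_ ?_ ?_
  · intro i hi
    by_contra hcon
    apply hi
    push Not at hcon
    obtain ⟨c1, c2, c3⟩ := hcon
    constructor
    · intro z hz1 hz2 hz3
      obtain ⟨k, hk, k1, k2, k3, k4⟩ := hK2 z (by linarith) (by linarith)
      have h := c3 k (mem_filter.2 ⟨hk, by linarith, by linarith⟩) z k1
      rw [hz3] at h
      norm_num at h
    · intro z hz1 hz2
      obtain ⟨k, hk, k1, k2, k3, k4⟩ := hK2 z hz1 (by linarith)
      have h := c2 k (mem_filter.2 ⟨hk, k2, by linarith⟩) z k1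
      have h7 : ‖F i z * M i‖ < E / 2 := by
        have e1 : E ^ 2 / 4 = (E / 2) ^ 2 := by ring
        rw [e1] at h
        exact lt_of_pow_lt_pow_left₀ 2 (by positivity) h
      have h8 : ‖a i * M i - 1‖ < 1 / 2 := by
        have e1 : (1 / 4 : ℝ) = (1 / 2) ^ 2 := by norm_num
        rw [e1] at c1
        exact lt_of_pow_lt_pow_left₀ 2 (by positivity) c1
      have h9 : 1 / 2 < ‖a i * M i‖ := by
        have e1 : (1 : ℂ) = a i * M i - (a i * M i - 1) := by ring
        have e2 : ‖(1 : ℂ)‖ ≤ ‖a i * M i‖ + ‖a i * M i - 1‖ := by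
          conv_lhs => rw [e1]
          exact norm_sub_le _ _
        rw [norm_one] at e2
        linarith
      rw [norm_mul] at h7 h9
      have hM : 0 < ‖M i‖ := by
        rcases (norm_nonneg (M i)).eq_or_lt with h0 | h0
        · rw [← h0] at h9
          norm_num at h9
        · exact h0
      rw [← hE]
      have h10 : ‖F i z‖ * ‖M i‖ ≤ (E * ‖a i‖) * ‖M i‖ := by nlinarith
      exact le_of_mul_le_mul_right h10 hM
  · refine (markov _ B₁ (1 / 4) (by norm_num) h1).trans ?_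
    linarith
  · have hsup := h5 ι (fun i z => F i z * M i) (fun i => (hF i).mul_const _)
      (K.filter (fun k => 0 ≤ k.re ∧ ‖k‖ ≤ R - 3)) 1 2 B₂ (E ^ 2 / 4) (by norm_num) (by norm_num)
      (by positivity) (by
        intro k hk w hw
        obtain ⟨-, k1, k2⟩ := mem_filter.1 hk
        have e1 : w = (w - k) + k := by ring
        apply h2
        · have e2 := Complex.abs_re_le_norm (w - k)
          rw [hw, Complex.sub_re] at e2
          linarith [(abs_le.1 e2).1]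
        · rw [e1]
          refine (norm_add_le _ _).trans ?_
          rw [hw]
          linarith)
    refine hsup.trans ?_
    rw [hE2]
    have e1 : 2 * B₂ / (E ^ 2 / 4) = 8 * B₂ * (1 / E ^ 2) := by
      field_simp
      ring
    rw [e1]
    exact mul_le_mul_of_nonneg_right (hKsub _) (by positivity)
  · have hsup := h5 ι (fun i z => F i z * G i z - 1) (fun i => ((hF i).mul (hG i)).sub_const _)
      (K.filter (fun k => c₀ * R - 1 ≤ k.re ∧ ‖k‖ ≤ R - 3)) 1 2 B₃ 1 (by norm_num) (by norm_num)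
      (by norm_num) (by
        intro k hk w hw
        obtain ⟨-, k1, k2⟩ := mem_filter.1 hk
        have e1 : w = (w - k) + k := by ring
        apply h3
        · have e2 := Complex.abs_re_le_norm (w - k)
          rw [hw, Complex.sub_re] at e2
          linarith [(abs_le.1 e2).1]
        · rw [e1]
          refine (norm_add_le _ _).trans ?_
          rw [hw]
          linarith)
    refine hsup.trans ?_
    rw [div_one]
    exact mul_le_mul_of_nonneg_right (hKsub _) (by positivity)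

/-- the point of the same height on the other side -/
lemma reflect (t L : ℝ) (z : ℂ) :
    1 / 2 + (t : ℂ) * Complex.I + z / (L : ℝ) =
      1 / 2 + ((t + z.im / L : ℝ) : ℂ) * Complex.I - ((-z.re / L : ℝ) : ℂ) ∧
    1 / 2 + (t : ℂ) * Complex.I + (-(starRingEnd ℂ) z) / (L : ℝ) =
      1 / 2 + ((t + z.im / L : ℝ) : ℂ) * Complex.I + ((-z.re / L : ℝ) : ℂ) := by
  have h1 : z = (z.re : ℂ) + (z.im : ℂ) * Complex.I := (Complex.re_add_im z).symm
  have h2 : (starRingEnd ℂ) z = (z.re : ℂ) - (z.im : ℂ) * Complex.I := by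
    apply Complex.ext <;> simp
  constructor
  · conv_lhs => rw [h1]
    push_cast
    ring
  · rw [h2]
    push_cast
    ring

theorem gs (h1 : S_MSSU) (h2 : Pool.Agent.Y766.R14.S_FMK) (h3 : Pool.Agent.Y766.R11.S_FMX)
    (h4 : Pool.Agent.Y766.R14.S_FEN) (h5 : S_SUP) (h6 : S_GRID) : S_GS := by
  intro δ T ε c₀ hδ hε hc₀
  obtain ⟨κ₁, c₁, hκ₁, -, hc₁, hc₁4, H1⟩ := h1 δ hδ
  obtain ⟨κ₀, hκ₀, -, H2⟩ := h2 δ hδ
  obtain ⟨κX, hκX, -, H3⟩ := h3 δ hδ
  obtain ⟨T', hT'⟩ : ∃ T' : ℝ, T' = |T| + 1 := ⟨_, rfl⟩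
  obtain ⟨κ, hκ⟩ : ∃ κ : ℝ, κ = min κ₁ (min κ₀ (ε / 64)) := ⟨_, rfl⟩
  have hκ0 : 0 < κ := by rw [hκ]; positivity
  have hκ1 : κ ≤ κ₁ := by rw [hκ]; exact min_le_left _ _
  have hκ2 : κ ≤ κ₀ := by rw [hκ]; exact (min_le_right _ _).trans (min_le_left _ _)
  have hκ3 : κ ≤ ε / 64 := by rw [hκ]; exact (min_le_right _ _).trans (min_le_right _ _)
  obtain ⟨CM, hCM, H1'⟩ := H1 κ hκ0 hκ1 T'
  obtain ⟨CK, cK, hCK, hcK, H2'⟩ := H2 κ hκ0 hκ2 T' 1 one_pos
  obtain ⟨CX, cX, hCX, hcX, H3'⟩ := H3 T' 1 one_pos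
  obtain ⟨q₀, H4⟩ := h4 T' 4
  obtain ⟨A₁, hA₁, hab1⟩ := absorb (a := ε / 2) (by positivity)
  obtain ⟨A₂, hA₂, hab2⟩ := absorb (a := cX * c₀ / 4) (by positivity)
  obtain ⟨c, hc⟩ : ∃ c : ℝ, c = min (cK / 2) (min (ε / 2) (cX * c₀ / 4)) := ⟨_, rfl⟩
  have hc0 : 0 < c := by rw [hc]; positivity
  have hc1 : c ≤ cK / 2 := by rw [hc]; exact min_le_left _ _
  have hc2 : c ≤ ε / 2 := by rw [hc]; exact (min_le_right _ _).trans (min_le_left _ _)
  have hc3 : c ≤ cX * c₀ / 4 := by rw [hc]; exact (min_le_right _ _).trans (min_le_right _ _)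
  obtain ⟨R₀, hR₀⟩ : ∃ R₀ : ℝ, R₀ = max 16 (16 / c₀) := ⟨_, rfl⟩
  refine ⟨4 * CK + 3200 * Real.exp 4 * CM * A₁ + 200 * CX * A₂ + Real.exp (c * R₀), c, c₁,
    by positivity, hc0, hc₁, ?_⟩
  intro p _ hp7
  obtain ⟨ν₁, H1''⟩ := H1' p hp7
  obtain ⟨ν₂, H2''⟩ := H2' p hp7
  obtain ⟨ν₃, H3''⟩ := H3' p hp7
  obtain ⟨ν₄, hν₄⟩ := exists_nat_ge q₀
  have hp : p.Prime := Fact.out
  have hp2 : (7 : ℝ) ≤ p := by exact_mod_cast hp7
  have hlp : 0 < Real.log p := Real.log_pos (by linarith)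
  refine ⟨max (max ν₁ ν₂) (max (max ν₃ ν₄) 1), ?_⟩
  intro ν m hmν hν hm χ hχ t ht R hR1 hRL
  have g1 : ν₁ ≤ ν := by omega
  have g2 : ν₂ ≤ ν := by omega
  have g3 : ν₃ ≤ ν := by omega
  have g4 : ν₄ ≤ ν := by omega
  have g5 : 1 ≤ ν := by omega
  have hq1 : 1 < p ^ ν := Nat.one_lt_pow (by omega) (by omega)
  have : NeZero (p ^ ν) := ⟨pow_ne_zero _ hp.ne_zero⟩
  have hlog : Real.log ((p ^ ν : ℕ) : ℝ) = ν * Real.log p := by
    push_cast
    exact Real.log_pow _ _
  have hqq : q₀ ≤ ((p ^ ν : ℕ) : ℝ) := by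
    refine hν₄.trans ?_
    have : ν₄ ≤ p ^ ν := g4.trans (Nat.lt_pow_self (by omega)).le
    exact_mod_cast this
  obtain ⟨L, hL⟩ : ∃ L : ℝ, L = ν * Real.log p := ⟨_, rfl⟩
  have hL0 : 0 < L := by
    rw [hL]
    have : (1 : ℝ) ≤ ν := by exact_mod_cast g5
    positivity
  obtain ⟨P, hP⟩ : ∃ P : ℝ, P = (p : ℝ) ^ m := ⟨_, rfl⟩
  have hP0 : 0 < P := by rw [hP]; positivity
  have hcard : (Fintype.card (DirichletCharacter ℂ (p ^ m)) : ℝ) ≤ P := by
    rw [hP]; exact card_le' p m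
  obtain ⟨ψ, hψ⟩ : ∃ ψ : DirichletCharacter ℂ (p ^ m) → DirichletCharacter ℂ (p ^ ν),
    ψ = fun θ => χ * DirichletCharacter.changeLevel (pow_dvd_pow p hmν.le) θ := ⟨_, rfl⟩
  have hprim : ∀ θ, (ψ θ).IsPrimitive := by
    intro θ
    rw [hψ]
    exact prim_mul hp hmν hχ θ
  have hLd : ∀ θ, Differentiable ℂ (ψ θ).LFunction := by
    intro θ
    apply DirichletCharacter.differentiable_LFunction
    intro h
    have h5 : (ψ θ).conductor = p ^ ν := hprim θ
    rw [h, DirichletCharacter.conductor_one] at h5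
    omega
  have K1 := H1'' ν m hmν g1 hm χ hχ
  have K2 := H2'' ν m hmν g2 hm χ hχ
  have K3 := H3'' ν m hmν g3 hm χ hχ
  rw [← hL] at hRL ⊢
  rw [← hP] at *
  have e0 : ∀ θ, χ * DirichletCharacter.changeLevel (pow_dvd_pow p hmν.le) θ = ψ θ := by
    intro θ; rw [hψ]
  simp only [e0, ← hL] at K1 K2 K3 ⊢
  clear H1 H2 H3 H1' H2' H3' H1'' H2'' H3''
  have hTT : |T| + 1 = T' := hT'.symm
  have hT0 : T ≤ |T| := le_abs_self T
  have hRL4 : R ≤ L / 4 := by nlinarith
  have hRLdiv : R / L ≤ 1 / 4 := by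
    rw [div_le_iff₀ hL0]; linarith
  rcases le_or_gt R R₀ with hRR | hRR
  · -- trivial range
    have q1 : (Nat.card {θ : DirichletCharacter ℂ (p ^ m) // ¬ GS (ψ θ).LFunction t L ε c₀ R} : ℝ) ≤
        P := by
      refine le_trans ?_ hcard
      classical
      rw [Nat.card_eq_fintype_card]
      exact_mod_cast Fintype.card_subtype_le _
    refine q1.trans ?_
    have q2 : 1 ≤ Real.exp (c * R₀) * Real.exp (-c * R) := by
      rw [← Real.exp_add]
      apply Real.one_le_exp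
      nlinarith
    have q3 : Real.exp (c * R₀) * Real.exp (-c * R) ≤ (4 * CK + 3200 * Real.exp 4 * CM * A₁ +
        200 * CX * A₂ + Real.exp (c * R₀)) * Real.exp (-c * R) := by
      apply mul_le_mul_of_nonneg_right _ (Real.exp_pos _).le
      have : 0 ≤ 4 * CK + 3200 * Real.exp 4 * CM * A₁ + 200 * CX * A₂ := by positivity
      linarith
    calc P = 1 * P := (one_mul P).symm
      _ ≤ _ := mul_le_mul_of_nonneg_right (q2.trans q3) hP0.le
  · have hR16 : 16 ≤ R := by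
      have : (16 : ℝ) ≤ R₀ := by rw [hR₀]; exact le_max_left _ _
      linarith
    have hcR : 16 ≤ c₀ * R := by
      have : 16 / c₀ ≤ R₀ := by rw [hR₀]; exact le_max_right _ _
      have h7 : 16 / c₀ ≤ R := by linarith
      rw [div_le_iff₀ hc₀] at h7
      linarith
    obtain ⟨sR, hsR⟩ : ∃ sR : ℂ, sR = 1 / 2 + (t : ℂ) * Complex.I + (R / 2 / L : ℝ) := ⟨_, rfl⟩
    have him : ∀ z : ℂ, (1 / 2 + (t : ℂ) * Complex.I + z / (L : ℝ)).im = t + z.im / L := by
      intro z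
      simp [Complex.div_ofReal_im]
    have hre : ∀ z : ℂ, (1 / 2 + (t : ℂ) * Complex.I + z / (L : ℝ)).re = 1 / 2 + z.re / L := by
      intro z
      simp [Complex.div_ofReal_re]
    -- the three bounds
    have B1 : ∑ θ, ‖(ψ θ).LFunction sR * MP (ψ θ) κ sR - 1‖ ^ 2 ≤
        CK * Real.exp (-(cK / 2) * R) * P := by
      have hre1 : sR.re = 1 / 2 + R / 2 / L := by
        rw [hsR]; simp
      have him1 : sR.im = t := by
        rw [hsR]; simp
      have hR2 : R / 2 / L ≤ 1 / 4 := by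
        rw [div_le_iff₀ hL0]; linarith
      have hR3 : 0 ≤ R / 2 / L := by positivity
      have k := K2 sR ⟨by
          rw [hre1]
          have : 0 ≤ 1 / Real.log ((p : ℝ) ^ ν) := by
            rw [Real.log_pow, ← hL]; positivity
          linarith, by rw [hre1]; linarith, by rw [him1]; linarith⟩
      rw [hre1] at k
      have e1 : -cK * (1 / 2 + R / 2 / L - 1 / 2) * L = -(cK / 2) * R := by
        field_simp
        ring
      rw [e1] at k
      exact k
    have B2 : ∀ z : ℂ, -2 ≤ z.re → ‖z‖ ≤ R →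
        ∑ θ, ‖(ψ θ).LFunction (1 / 2 + (t : ℂ) * Complex.I + z / (L : ℝ)) *
          MP (ψ θ) κ sR‖ ^ 2 ≤
        4 * Real.exp 4 * (CM * (1 + R) ^ 4 * Real.exp (4 * κ * R) * P) := by
      intro z hz1 hz2
      have hE4 : (1 : ℝ) ≤ 4 * Real.exp 4 := by
        have := Real.one_le_exp (show (0 : ℝ) ≤ 4 by norm_num)
        linarith
      rcases le_or_gt 0 z.re with hz3 | hz3
      · have k := K1 t (by linarith) R hR1 hRL z hz3 hz2
        rw [← hsR] at k
        refine k.trans ?_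
        have : 0 ≤ CM * (1 + R) ^ 4 * Real.exp (4 * κ * R) * P := by positivity
        nlinarith
      · have k := K1 t (by linarith) R hR1 hRL (-(starRingEnd ℂ) z) (by simp; linarith)
          (by rw [norm_neg, Complex.norm_conj]; exact hz2)
        rw [← hsR] at k
        obtain ⟨r1, r2⟩ := reflect t L z
        have hb : ∀ θ, ‖(ψ θ).LFunction (1 / 2 + (t : ℂ) * Complex.I + z / (L : ℝ)) *
            MP (ψ θ) κ sR‖ ^ 2 ≤ 4 * Real.exp 4 *
            ‖(ψ θ).LFunction (1 / 2 + (t : ℂ) * Complex.I + (-(starRingEnd ℂ) z) / (L : ℝ)) *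
            MP (ψ θ) κ sR‖ ^ 2 := by
          intro θ
          have hti : |t + z.im / L| ≤ T' := by
            refine (abs_add_le _ _).trans ?_
            rw [abs_div, abs_of_pos hL0]
            have : |z.im| / L ≤ 1 / 4 := by
              rw [div_le_iff₀ hL0]
              linarith [Complex.abs_im_le_norm z]
            linarith
          have k4 := (H4 (p ^ ν) hqq hq1 (ψ θ) (hprim θ) (t + z.im / L) (-z.re) hti
            (by linarith) (by linarith)).2
          rw [hlog, ← hL, ← r1, ← r2] at k4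
          have k5 : ‖(ψ θ).LFunction (1 / 2 + (t : ℂ) * Complex.I + z / (L : ℝ)) *
            MP (ψ θ) κ sR‖ ≤ 2 * Real.exp 2 *
            ‖(ψ θ).LFunction (1 / 2 + (t : ℂ) * Complex.I + (-(starRingEnd ℂ) z) / (L : ℝ)) *
            MP (ψ θ) κ sR‖ := by
            rw [norm_mul, norm_mul, ← mul_assoc]
            apply mul_le_mul_of_nonneg_right _ (norm_nonneg _)
            refine k4.trans ?_
            apply mul_le_mul_of_nonneg_right _ (norm_nonneg _)
            have : Real.exp (-z.re) ≤ Real.exp 2 := Real.exp_le_exp.2 (by linarith)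
            linarith
          have e2 : 4 * Real.exp 4 = (2 * Real.exp 2) ^ 2 := by
            rw [mul_pow, ← Real.exp_nat_mul]
            norm_num
          rw [e2, ← mul_pow]
          exact pow_le_pow_left₀ (norm_nonneg _) k5 2
        refine (sum_le_sum fun θ _ => hb θ).trans ?_
        rw [← mul_sum]
        exact mul_le_mul_of_nonneg_left k (by positivity)
    have B3 : ∀ z : ℂ, c₀ * R / 2 ≤ z.re → ‖z‖ ≤ R →
        ∑ θ, ‖(ψ θ).LFunction (1 / 2 + (t : ℂ) * Complex.I + z / (L : ℝ)) *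
          MP (ψ θ) κX (1 / 2 + (t : ℂ) * Complex.I + z / (L : ℝ)) - 1‖ ^ 2 ≤
        CX * Real.exp (-(cX * c₀ / 2) * R) * P := by
      intro z hz1 hz2
      have hzr : z.re ≤ R := (Complex.re_le_norm z).trans hz2
      have hzL : z.re / L ≤ 1 / 4 := by
        rw [div_le_iff₀ hL0]; linarith
      have hzL0 : 0 ≤ z.re / L := div_nonneg (by linarith) hL0.le
      have k := K3 (1 / 2 + (t : ℂ) * Complex.I + z / (L : ℝ)) (by
          rw [hre]
          have : 0 ≤ 1 / L := by positivity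
          linarith) (by rw [hre]; linarith) (by
          rw [him]
          refine (abs_add_le _ _).trans ?_
          rw [abs_div, abs_of_pos hL0]
          have : |z.im| / L ≤ 1 / 4 := by
            rw [div_le_iff₀ hL0]
            linarith [Complex.abs_im_le_norm z]
          linarith)
      refine k.trans ?_
      rw [hre]
      apply mul_le_mul_of_nonneg_right _ hP0.le
      apply mul_le_mul_of_nonneg_left _ hCX.le
      apply Real.exp_le_exp.2
      have e1 : -cX * (1 / 2 + z.re / L - 1 / 2) * L = -cX * z.re := by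
        field_simp
        ring
      rw [e1]
      nlinarith
    have hlin : Differentiable ℂ (fun z : ℂ => 1 / 2 + (t : ℂ) * Complex.I + z / (L : ℝ)) :=
      (differentiable_id.div_const _).const_add _
    have hmain := core h5 h6
      (fun θ z => (ψ θ).LFunction (1 / 2 + (t : ℂ) * Complex.I + z / (L : ℝ)))
      (fun θ z => MP (ψ θ) κX (1 / 2 + (t : ℂ) * Complex.I + z / (L : ℝ)))
      (fun θ => (hLd θ).comp hlin) (fun θ => (MP_diff (ψ θ) κX).comp hlin)
      (fun θ => MP (ψ θ) κ sR) (fun θ => (ψ θ).LFunction sR) (ε := ε) hR16 hcR (by positivity)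
      (by positivity) B1 B2 B3
    have hgoal : (Nat.card {θ : DirichletCharacter ℂ (p ^ m) //
        ¬ GS (ψ θ).LFunction t L ε c₀ R} : ℝ) ≤
        4 * (CK * Real.exp (-(cK / 2) * R) * P) + 100 * R ^ 2 * (8 * (4 * Real.exp 4 *
        (CM * (1 + R) ^ 4 * Real.exp (4 * κ * R) * P)) * Real.exp (-(2 * (ε * R)))) +
        100 * R ^ 2 * (2 * (CX * Real.exp (-(cX * c₀ / 2) * R) * P)) := by
      rw [hsR] at hmain
      exact hmain
    refine hgoal.trans ?_
    have hR0 : 0 ≤ R := by linarith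
    have w1 : Real.exp (-(cK / 2) * R) ≤ Real.exp (-c * R) := by
      apply Real.exp_le_exp.2; nlinarith
    have w2 : R ^ 2 * (1 + R) ^ 4 * (Real.exp (4 * κ * R) * Real.exp (-(2 * (ε * R)))) ≤
        A₁ * Real.exp (-c * R) := by
      have v1 : R ^ 2 * (1 + R) ^ 4 ≤ (1 + R) ^ 6 := by
        have : R ^ 2 ≤ (1 + R) ^ 2 := pow_le_pow_left₀ hR0 (by linarith) 2
        calc R ^ 2 * (1 + R) ^ 4 ≤ (1 + R) ^ 2 * (1 + R) ^ 4 :=
              mul_le_mul_of_nonneg_right this (by positivity)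
          _ = (1 + R) ^ 6 := by ring
      calc R ^ 2 * (1 + R) ^ 4 * (Real.exp (4 * κ * R) * Real.exp (-(2 * (ε * R))))
          ≤ (A₁ * Real.exp (ε / 2 * R)) * (Real.exp (4 * κ * R) * Real.exp (-(2 * (ε * R)))) :=
            mul_le_mul_of_nonneg_right (v1.trans (hab1 R hR0)) (by positivity)
        _ = A₁ * Real.exp (ε / 2 * R + (4 * κ * R + -(2 * (ε * R)))) := by
            rw [Real.exp_add, Real.exp_add]; ring
        _ ≤ A₁ * Real.exp (-c * R) := by
            apply mul_le_mul_of_nonneg_left _ hA₁.le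
            apply Real.exp_le_exp.2
            nlinarith
    have w3 : R ^ 2 * Real.exp (-(cX * c₀ / 2) * R) ≤ A₂ * Real.exp (-c * R) := by
      have v1 : R ^ 2 ≤ (1 + R) ^ 6 := by
        have v2 : R ^ 2 ≤ (1 + R) ^ 2 := pow_le_pow_left₀ hR0 (by linarith) 2
        exact v2.trans (pow_le_pow_right₀ (by linarith) (by norm_num))
      calc R ^ 2 * Real.exp (-(cX * c₀ / 2) * R)
          ≤ (A₂ * Real.exp (cX * c₀ / 4 * R)) * Real.exp (-(cX * c₀ / 2) * R) :=
            mul_le_mul_of_nonneg_right (v1.trans (hab2 R hR0)) (by positivity)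
        _ = A₂ * Real.exp (cX * c₀ / 4 * R + (-(cX * c₀ / 2) * R)) := by
            rw [Real.exp_add]; ring
        _ ≤ A₂ * Real.exp (-c * R) := by
            apply mul_le_mul_of_nonneg_left _ hA₂.le
            apply Real.exp_le_exp.2
            nlinarith
    calc 4 * (CK * Real.exp (-(cK / 2) * R) * P) + 100 * R ^ 2 * (8 * (4 * Real.exp 4 *
        (CM * (1 + R) ^ 4 * Real.exp (4 * κ * R) * P)) * Real.exp (-(2 * (ε * R)))) +
        100 * R ^ 2 * (2 * (CX * Real.exp (-(cX * c₀ / 2) * R) * P))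
        = 4 * CK * Real.exp (-(cK / 2) * R) * P + 3200 * Real.exp 4 * CM *
          (R ^ 2 * (1 + R) ^ 4 * (Real.exp (4 * κ * R) * Real.exp (-(2 * (ε * R))))) * P +
          200 * CX * (R ^ 2 * Real.exp (-(cX * c₀ / 2) * R)) * P := by ring
      _ ≤ 4 * CK * Real.exp (-c * R) * P + 3200 * Real.exp 4 * CM *
          (A₁ * Real.exp (-c * R)) * P + 200 * CX * (A₂ * Real.exp (-c * R)) * P := by
          gcongr
      _ = (4 * CK + 3200 * Real.exp 4 * CM * A₁ + 200 * CX * A₂) * Real.exp (-c * R) * P := by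
          ring
      _ ≤ (4 * CK + 3200 * Real.exp 4 * CM * A₁ + 200 * CX * A₂ + Real.exp (c * R₀)) *
          Real.exp (-c * R) * P := by
          apply mul_le_mul_of_nonneg_right _ hP0.le
          apply mul_le_mul_of_nonneg_right _ (Real.exp_pos _).le
          linarith [Real.exp_pos (c * R₀)]

end Pool.Agent.H118.MI
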