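import Pool.Agent.H812.SO.Stm

/-!
# SO-KAP: the ratio just after a zero of the Bessel function (helper118)
-/

set_option autoImplicit false

namespace Pool.Agent.H118.SoKAP

open Set Pool.Agent.H812.SO Pool.Agent.N229.SC

/-- mean value inequality -/
theorem mvt_le {f f' : ℝ → ℝ} {s M : ℝ} (hs : 0 ≤ s) (hf : ∀ t ∈ Icc 0 s, HasDerivAt f (f' t) t)
    (hb : ∀ t ∈ Icc 0 s, f' t ≤ M) : f s - f 0 ≤ M * s := by
  rcases hs.eq_or_lt with h | h
  · rw [← h]; simp
  · obtain ⟨c, hc, hcd⟩ := exists_hasDerivAt_eq_slope f f' h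
      (fun t ht => (hf t ht).continuousAt.continuousWithinAt)
      (fun t ht => hf t (Ioo_subset_Icc_self ht))
    rw [sub_zero] at hcd
    have h1 := hb c (Ioo_subset_Icc_self hc)
    rw [hcd, div_le_iff₀ h] at h1
    exact h1

/-- mean value inequality -/
theorem mvt_ge {f f' : ℝ → ℝ} {s m : ℝ} (hs : 0 ≤ s) (hf : ∀ t ∈ Icc 0 s, HasDerivAt f (f' t) t)
    (hb : ∀ t ∈ Icc 0 s, m ≤ f' t) : m * s ≤ f s - f 0 := by
  have h := mvt_le (f := fun t => -f t) (f' := fun t => -f' t) (M := -m) hs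
    (fun t ht => (hf t ht).neg) (fun t ht => neg_le_neg (hb t ht))
  linarith

/-- the linear system -/
theorem system {u v u' v' c d : ℝ → ℝ} {s : ℝ} (hs : 0 ≤ s) (hs1 : s ≤ 1 / 100)
    (hc : ∀ t ∈ Icc 0 s, 0 ≤ c t ∧ c t ≤ 1) (hd : ∀ t ∈ Icc 0 s, 0 ≤ d t ∧ d t ≤ 2)
    (hu : ∀ t ∈ Icc 0 s, HasDerivAt u (u' t) t) (hv : ∀ t ∈ Icc 0 s, HasDerivAt v (v' t) t)
    (hu' : ∀ t ∈ Icc 0 s, u' t = c t * u t + v t)
    (hv' : ∀ t ∈ Icc 0 s, v' t = -u t - d t * v t) (hu0 : u 0 = 0) (hv0 : v 0 = 1) :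
    (9 / 10 * s ≤ u s ∧ u s ≤ 11 / 10 * s) ∧ 94 / 100 ≤ v s := by
  -- the energy bound
  have hE : ∀ r ∈ Icc 0 s, u r ^ 2 + v r ^ 2 ≤ 4 := by
    intro r hr
    have hsub : ∀ t ∈ Icc 0 r, t ∈ Icc 0 s := fun t ht => ⟨ht.1, ht.2.trans hr.2⟩
    have h1 := mvt_le (f := fun t => (u t ^ 2 + v t ^ 2) * Real.exp (-2 * t))
      (f' := fun t => (2 * u t * u' t + 2 * v t * v' t) * Real.exp (-2 * t) +
        (u t ^ 2 + v t ^ 2) * (Real.exp (-2 * t) * (-2))) (M := 0) hr.1 (fun t ht => by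
          have e1 := ((hu t (hsub t ht)).pow 2).add ((hv t (hsub t ht)).pow 2)
          have e2 : HasDerivAt (fun t : ℝ => Real.exp (-2 * t)) (Real.exp (-2 * t) * (-2)) t := by
            have e3 : HasDerivAt (fun t : ℝ => -2 * t) (-2) t := by
              simpa using (hasDerivAt_id t).const_mul (-2 : ℝ)
            exact e3.exp
          have e4 := e1.mul e2
          refine e4.congr_deriv ?_
          simp only [Pi.add_apply, Pi.pow_apply, Nat.cast_ofNat]
          ring) (fun t ht => by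
          have e1 := hc t (hsub t ht)
          have e2 := hd t (hsub t ht)
          rw [hu' t (hsub t ht), hv' t (hsub t ht)]
          have e3 : (2 * u t * (c t * u t + v t) + 2 * v t * (-u t - d t * v t)) *
              Real.exp (-2 * t) + (u t ^ 2 + v t ^ 2) * (Real.exp (-2 * t) * -2) =
              -((2 * (1 - c t) * u t ^ 2 + 2 * (1 + d t) * v t ^ 2) * Real.exp (-2 * t)) := by
            ring
          rw [e3]
          have e4 : 0 ≤ (2 * (1 - c t) * u t ^ 2 + 2 * (1 + d t) * v t ^ 2) *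
              Real.exp (-2 * t) := by
            have e5 : 0 ≤ 1 - c t := by linarith
            have e6 : 0 ≤ 1 + d t := by linarith
            positivity
          linarith)
    simp only [hu0, hv0, mul_zero, Real.exp_zero, zero_mul] at h1
    have h2 : Real.exp (2 * r) ≤ 4 := by
      have h3 : Real.exp (2 * r) ≤ Real.exp 1 :=
        Real.exp_le_exp.2 (by linarith [hr.2])
      have h4 := Real.exp_one_lt_d9
      linarith
    have h5 : (u r ^ 2 + v r ^ 2) * Real.exp (-2 * r) ≤ 1 := by linarith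
    have h6 : Real.exp (-2 * r) * Real.exp (2 * r) = 1 := by
      rw [← Real.exp_add]
      simp
    calc u r ^ 2 + v r ^ 2 = ((u r ^ 2 + v r ^ 2) * Real.exp (-2 * r)) * Real.exp (2 * r) := by
          rw [mul_assoc, h6, mul_one]
      _ ≤ 1 * Real.exp (2 * r) := mul_le_mul_of_nonneg_right h5 (Real.exp_pos _).le
      _ ≤ 4 := by linarith
  have hub : ∀ r ∈ Icc 0 s, |u r| ≤ 2 := by
    intro r hr
    have h1 := hE r hr
    refine abs_le_of_sq_le_sq (by nlinarith [sq_nonneg (v r)]) (by norm_num)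
  have hvb : ∀ r ∈ Icc 0 s, |v r| ≤ 2 := by
    intro r hr
    have h1 := hE r hr
    refine abs_le_of_sq_le_sq (by nlinarith [sq_nonneg (u r)]) (by norm_num)
  have hcu : ∀ r ∈ Icc 0 s, |c r * u r| ≤ |u r| := by
    intro r hr
    rw [abs_mul, abs_of_nonneg (hc r hr).1]
    calc c r * |u r| ≤ 1 * |u r| := mul_le_mul_of_nonneg_right (hc r hr).2 (abs_nonneg _)
      _ = |u r| := one_mul _
  have hdv : ∀ r ∈ Icc 0 s, |d r * v r| ≤ 4 := by
    intro r hr
    rw [abs_mul, abs_of_nonneg (hd r hr).1]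
    calc d r * |v r| ≤ 2 * 2 :=
          mul_le_mul (hd r hr).2 (hvb r hr) (abs_nonneg _) (by norm_num)
      _ = 4 := by norm_num
  -- the second bounds
  have hu2 : ∀ r ∈ Icc 0 s, -(4 / 100) ≤ u r ∧ u r ≤ 4 / 100 := by
    intro r hr
    have hsub : ∀ t ∈ Icc 0 r, t ∈ Icc 0 s := fun t ht => ⟨ht.1, ht.2.trans hr.2⟩
    have h1 := mvt_le (f := u) (f' := u') (M := 4) hr.1 (fun t ht => hu t (hsub t ht))
      (fun t ht => by
        rw [hu' t (hsub t ht)]
        have e1 := abs_le.1 (hcu t (hsub t ht))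
        have e2 := hub t (hsub t ht)
        have e3 := abs_le.1 (hvb t (hsub t ht))
        linarith [e1.2, e3.2])
    have h2 := mvt_ge (f := u) (f' := u') (m := -4) hr.1 (fun t ht => hu t (hsub t ht))
      (fun t ht => by
        rw [hu' t (hsub t ht)]
        have e1 := abs_le.1 (hcu t (hsub t ht))
        have e2 := hub t (hsub t ht)
        have e3 := abs_le.1 (hvb t (hsub t ht))
        linarith [e1.1, e3.1])
    have h3 := hr.2
    rw [hu0] at h1 h2
    constructor <;> linarith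
  have hv2 : ∀ r ∈ Icc 0 s, 94 / 100 ≤ v r ∧ v r ≤ 106 / 100 := by
    intro r hr
    have hsub : ∀ t ∈ Icc 0 r, t ∈ Icc 0 s := fun t ht => ⟨ht.1, ht.2.trans hr.2⟩
    have h1 := mvt_le (f := v) (f' := v') (M := 6) hr.1 (fun t ht => hv t (hsub t ht))
      (fun t ht => by
        rw [hv' t (hsub t ht)]
        have e1 := abs_le.1 (hdv t (hsub t ht))
        have e2 := abs_le.1 (hub t (hsub t ht))
        linarith [e1.1, e2.1])
    have h2 := mvt_ge (f := v) (f' := v') (m := -6) hr.1 (fun t ht => hv t (hsub t ht))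
      (fun t ht => by
        rw [hv' t (hsub t ht)]
        have e1 := abs_le.1 (hdv t (hsub t ht))
        have e2 := abs_le.1 (hub t (hsub t ht))
        linarith [e1.2, e2.2])
    have h3 := hr.2
    rw [hv0] at h1 h2
    constructor <;> linarith
  have hcu2 : ∀ r ∈ Icc 0 s, |c r * u r| ≤ 4 / 100 := by
    intro r hr
    exact (hcu r hr).trans (abs_le.2 (hu2 r hr))
  refine ⟨⟨?_, ?_⟩, (hv2 s ⟨hs, le_rfl⟩).1⟩
  · have h1 := mvt_ge (f := u) (f' := u') (m := 9 / 10) hs hu (fun t ht => by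
      rw [hu' t ht]
      have e1 := abs_le.1 (hcu2 t ht)
      have e2 := hv2 t ht
      linarith [e1.1, e2.1])
    rw [hu0] at h1
    linarith
  · have h1 := mvt_le (f := u) (f' := u') (M := 11 / 10) hs hu (fun t ht => by
      rw [hu' t ht]
      have e1 := abs_le.1 (hcu2 t ht)
      have e2 := hv2 t ht
      linarith [e1.2, e2.2])
    rw [hu0] at h1
    linarith

/-- **SO-KAP.** -/
theorem proof_KAP (hDER : S_DER) (hSIM : S_SIM) : S_KAP := by
  intro n a s hn hna hz hs hs1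
  have hn1 : (1 : ℝ) ≤ n := by exact_mod_cast hn
  have ha : 0 < a := by linarith
  have hj : Fb a (n + 1) ≠ 0 := hSIM n a ha hz
  obtain ⟨j, hjd⟩ : ∃ j : ℝ, j = Fb a (n + 1) := ⟨_, rfl⟩
  rw [← hjd] at hj
  have hmain := system (u := fun t => -(Fb (a + t) n / j)) (v := fun t => Fb (a + t) (n + 1) / j)
    (u' := fun t => -((n / (a + t) * Fb (a + t) n - Fb (a + t) (n + 1)) / j))
    (v' := fun t => (Fb (a + t) n - (n + 1) / (a + t) * Fb (a + t) (n + 1)) / j)
    (c := fun t => n / (a + t)) (d := fun t => (n + 1) / (a + t)) hs.le hs1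
    (fun t ht => by
      have h1 : 0 < a + t := by linarith [ht.1]
      refine ⟨div_nonneg (by linarith) h1.le, ?_⟩
      rw [div_le_one h1]
      linarith [ht.1])
    (fun t ht => by
      have h1 : 0 < a + t := by linarith [ht.1]
      refine ⟨div_nonneg (by linarith) h1.le, ?_⟩
      rw [div_le_iff₀ h1]
      linarith [ht.1])
    (fun t ht => by
      have h1 : 0 < a + t := by linarith [ht.1]
      exact (((hDER n (a + t) h1).1.comp_const_add a t).div_const j).neg)
    (fun t ht => by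
      have h1 : 0 < a + t := by linarith [ht.1]
      exact ((hDER n (a + t) h1).2.comp_const_add a t).div_const j)
    (fun t ht => by
      field_simp
      ring)
    (fun t ht => by
      field_simp)
    (by simp only [add_zero, hz, zero_div, neg_zero])
    (by simp only [add_zero]; rw [← hjd, div_self hj])
  obtain ⟨⟨h1, h2⟩, h3⟩ := hmain
  obtain ⟨u, hu⟩ : ∃ u : ℝ, u = -(Fb (a + s) n / j) := ⟨_, rfl⟩
  obtain ⟨v, hv⟩ : ∃ v : ℝ, v = Fb (a + s) (n + 1) / j := ⟨_, rfl⟩
  rw [← hu] at h1 h2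
  rw [← hv] at h3
  have hv0 : 0 < v := by linarith
  have hq : -(Fb (a + s) n / Fb (a + s) (n + 1)) = u / v := by
    rw [hu, hv, neg_div, div_div_div_cancel_right₀ hj]
  rw [hq]
  refine ⟨div_pos (by linarith) hv0, ?_⟩
  rw [div_le_iff₀ hv0]
  nlinarith

end Pool.Agent.H118.SoKAP
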